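import Mathlib
import Pool.Agent.H530R2.Gen2
import Pool.Agent.W936.RO.Ext

/-!
The generator with a base point whose coordinates are univariate polynomials, in particular the
interpolated prime powers scaled by an origin.
-/

namespace Pool.Agent.W936.WB

open MvPolynomial Module Pool.Agent.H530R2

open Pool.Agent.H626R2.Loc (evG genG base evT gen psiN psi)

section base

variable {n : ℕ}

/-- the base point -/
noncomputable def rpt (β : Fin n → Polynomial ℂ) : Fin n → RatFunc ℂ :=
  fun m => algebraMap (Polynomial ℂ) (RatFunc ℂ) (β m)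

/-- the system of ideals of the generator with this base point -/
noncomputable def rVan (β : Fin n → Polynomial ℂ) : VanM (RatFunc ℂ) n :=
  shVan (F := RatFunc ℂ) _ (natInj n) (rpt β)

theorem eval_rpt (β : Fin n → Polynomial ℂ) (h : MvPolynomial (Fin n) ℂ) :
    eval (rpt β) (map (algebraMap ℂ (RatFunc ℂ)) h) =
      algebraMap (Polynomial ℂ) (RatFunc ℂ) (aeval β h) := by
  rw [eval_map]
  induction h using MvPolynomial.induction_on with
  | C r => rw [eval₂_C, algHom_C, ← IsScalarTower.algebraMap_apply]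
  | add p q hp hq => rw [eval₂_add, hp, hq, map_add, map_add]
  | mul_X p i hp =>
    rw [eval₂_mul, hp, eval₂_X, map_mul, map_mul, aeval_X]
    rfl

theorem eval_rpt_ne {β : Fin n → Polynomial ℂ} {h : MvPolynomial (Fin n) ℂ}
    (h0 : aeval β h ≠ 0) : eval (rpt β) (map (algebraMap ℂ (RatFunc ℂ)) h) ≠ 0 := by
  rw [eval_rpt]
  intro hc
  exact h0 ((IsFractionRing.injective (Polynomial ℂ) (RatFunc ℂ)) (by rw [hc, map_zero]))

theorem rVan_hit {β : Fin n → Polynomial ℂ} {h : MvPolynomial (Fin n) ℂ}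
    (h0 : aeval β h ≠ 0) (Y : Finset (Fin n)) :
    map (algebraMap ℂ (RatFunc ℂ)) h ∉ (rVan β).I 0 Y := fun hc =>
  eval_rpt_ne h0 (shVan_zero _ (natInj n) (rpt β) Y hc)

theorem map_evB {β : Fin n → Polynomial ℂ} {T : ℕ} (h : MvPolynomial (Fin n) ℂ) :
    map (algebraMap (Polynomial ℂ) (RatFunc ℂ)) (evG ℂ β T h) =
      evT (RatFunc ℂ) n T (tsl (rpt β) (map (algebraMap ℂ (RatFunc ℂ)) h)) := by
  have e0 : ∀ x : RatFunc ℂ, evT (RatFunc ℂ) n T (C x) = C x :=
    fun x => (evT (RatFunc ℂ) n T).commutes x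
  induction h using MvPolynomial.induction_on with
  | C r =>
    have e1 : evG ℂ β T (C r) = C (algebraMap ℂ (Polynomial ℂ) r) :=
      (evG ℂ β T).commutes r
    have e2 : ∀ x : RatFunc ℂ, tsl (rpt β) (C x) = C x := fun x => (tsl (rpt β)).commutes x
    rw [e1, map_C, map_C, e2, e0, ← IsScalarTower.algebraMap_apply]
  | add p q hp hq => rw [map_add, map_add, hp, hq, map_add, map_add, map_add]
  | mul_X p m hp =>
    have e1 : evG ℂ β T (X m) = genG β T m := aeval_X _ m
    have e3 : evT (RatFunc ℂ) n T (X m) = Pool.Agent.H626R2.Loc.gen (RatFunc ℂ) n T m := aeval_X _ m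
    have h1 : map (algebraMap (Polynomial ℂ) (RatFunc ℂ)) (evG ℂ β T (X m)) =
        evT (RatFunc ℂ) n T (tsl (rpt β) (map (algebraMap ℂ (RatFunc ℂ)) (X m))) := by
      rw [map_X, tsl_X, e1, map_add, e0, e3]
      unfold genG Pool.Agent.H626R2.Loc.gen
      rw [map_add, map_C, map_sum, add_comm]
      congr 1
      apply Finset.sum_congr rfl
      intro l _
      rw [map_mul, map_X, map_prod]
      congr 1
      apply Finset.prod_congr rfl
      intro j _
      rw [map_sub, map_X, map_C, map_natCast]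
    rw [map_mul, map_mul, map_mul, map_mul, map_mul, hp, h1]

theorem mem_rVan {β : Fin n → Polynomial ℂ} {T : ℕ} {h : MvPolynomial (Fin n) ℂ}
    (h0 : evG ℂ β T h = 0) : map (algebraMap ℂ (RatFunc ℂ)) h ∈ (rVan β).I T ∅ := by
  refine (mem_shVan _ (natInj n) (rpt β) T _).2 ?_
  have h1 := map_evB (β := β) (T := T) h
  rw [h0, map_zero] at h1
  by_contra hc
  exact (evT_ne_iff n T _).2 hc h1.symm

/-- the value at the base point is nonzero, so the generator hits -/
theorem evB_ne {β : Fin n → Polynomial ℂ} {T : ℕ} {h : MvPolynomial (Fin n) ℂ}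
    (h0 : aeval β h ≠ 0) : evG ℂ β T h ≠ 0 := by
  intro hc
  exact rVan_hit h0 ∅ ((rVan β).mono (Nat.zero_le T) ∅ (mem_rVan hc))

end base

section grid

open Pool.Agent.H626R2.Loc.S8

variable {K : Type} [Field K] {n : ℕ}

theorem bd_genB {N T : ℕ} {β : Fin n → Polynomial K} (hβ : ∀ m, (β m).natDegree ≤ N)
    (m : Fin n) : Bd N (genG β T m) := by
  unfold genG
  refine bd_add (bd_C (hβ m)) ?_
  refine bd_sum _ _ fun l _ => ?_
  have h1 := bd_mul (K := K) (bd_X (Sum.inl l : Fin T ⊕ Fin T))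
    (bd_prod (Finset.univ.erase m) (fun _ => 0) (fun j : Fin n =>
      (X (Sum.inr l) - MvPolynomial.C ((j : ℕ) : Polynomial K) :
        MvPolynomial (Fin T ⊕ Fin T) (Polynomial K))) fun j _ => by
      rw [sub_eq_add_neg]
      exact bd_add (bd_X _) (bd_neg (bd_C (by simp))))
  refine bd_mono h1 ?_
  simp

/-- specialization of the parameter -/
theorem exists_paramB [CharZero K] {T D N : ℕ} {β : Fin n → Polynomial K}
    (hβ : ∀ m, (β m).natDegree ≤ N) {f : MvPolynomial (Fin n) K}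
    (h : evG K β T f ≠ 0) (hD : f.totalDegree ≤ D) :
    ∃ u : ℕ, u ≤ N * D ∧
      aeval (fun m : Fin n => C ((β m).eval (u : K)) + gen K n T m) f ≠ 0 := by
  classical
  obtain ⟨m, hm⟩ := MvPolynomial.ne_zero_iff.1 h
  have h1 : ((evG K β T f).coeff m).natDegree ≤ N * D := by
    have h2 := bd_aeval (genG β T) (bd_genB hβ) f m
    refine h2.trans ?_
    rw [Nat.mul_comm]
    exact Nat.mul_le_mul_left _ hD
  have h3 : ∃ u : ℕ, u ≤ N * D ∧ ((evG K β T f).coeff m).eval (u : K) ≠ 0 := by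
    by_contra hcon
    push Not at hcon
    apply hm
    refine Polynomial.eq_zero_of_natDegree_lt_card_of_eval_eq_zero'
      ((evG K β T f).coeff m)
      ((Finset.range (N * D + 1)).image (Nat.cast : ℕ → K)) ?_ ?_
    · intro x hx
      obtain ⟨a, ha, rfl⟩ := Finset.mem_image.1 hx
      exact hcon a (Nat.lt_succ_iff.1 (Finset.mem_range.1 ha))
    · rw [Finset.card_image_of_injective _ Nat.cast_injective, Finset.card_range]
      omega
  obtain ⟨u, hu, hne⟩ := h3
  refine ⟨u, hu, fun h0 => hne ?_⟩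
  let φ : Polynomial K →ₐ[K] K := Polynomial.aeval (u : K)
  have hφ : ∀ p, φ p = p.eval (u : K) := fun p => by
    rw [← Polynomial.coe_aeval_eq_eval]
  have h4 : mapAlgHom φ (evG K β T f) =
      aeval (fun m : Fin n => C ((β m).eval (u : K)) + gen K n T m) f := by
    unfold evG
    rw [← AlgHom.comp_apply, comp_aeval]
    congr 2
    funext m
    unfold genG Pool.Agent.H626R2.Loc.gen
    change mapAlgHom φ _ = _
    have hC : ∀ c : Polynomial K, mapAlgHom (σ := Fin T ⊕ Fin T) φ (C c) = C (φ c) :=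
      fun c => map_C _ _
    have hX : ∀ i : Fin T ⊕ Fin T, mapAlgHom φ (X i) = X i := fun i => map_X _ _
    rw [map_add, hC, hφ, map_sum]
    congr 2
    funext l
    rw [map_mul, map_prod, hX]
    congr 1
    refine Finset.prod_congr rfl fun j _ => ?_
    rw [map_sub, hX, hC, hφ]
    simp
  have h5 : (mapAlgHom φ (evG K β T f)).coeff m =
      φ ((evG K β T f).coeff m) := coeff_map _ _ _
  rw [h4, h0, coeff_zero, hφ] at h5
  exact h5.symm

theorem exists_gridB [CharZero K] {T D N : ℕ} {β : Fin n → Polynomial K}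
    (hβ : ∀ m, (β m).natDegree ≤ N) {f : MvPolynomial (Fin n) K}
    (h : evG K β T f ≠ 0) (hD : f.totalDegree ≤ D) :
    ∃ (u : ℕ) (y z : Fin T → ℕ), u ≤ N * D ∧ (∀ l, y l ≤ D) ∧ (∀ l, z l ≤ n * D) ∧
      eval (fun m : Fin n => (β m).eval (u : K) +
        ∑ l, (y l : K) * ∏ j ∈ Finset.univ.erase m, ((z l : K) - ((j : ℕ) : K))) f ≠ 0 := by
  classical
  obtain ⟨u, hu, h'⟩ := exists_paramB hβ h hD
  set g' : Fin n → MvPolynomial (Fin T ⊕ Fin T) K :=
    fun m => C ((β m).eval (u : K)) + gen K n T m with hg'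
  let B : Fin T ⊕ Fin T → ℕ := fun i => Sum.elim (fun _ => D) (fun _ => n * D) i
  let S : Fin T ⊕ Fin T → Finset K := fun i => (Finset.range (B i + 1)).image (Nat.cast : ℕ → K)
  have hcard : ∀ i, (S i).card = B i + 1 := fun i => by
    simp only [S]
    rw [Finset.card_image_of_injective _ Nat.cast_injective, Finset.card_range]
  have hdl : ∀ (l : Fin T) (m : Fin n), (g' m).degreeOf (Sum.inl l) ≤ 1 := by
    intro l m
    refine (degreeOf_add_le _ _ _).trans ?_
    rw [degreeOf_C]
    exact max_le (Nat.zero_le _) (Pool.Agent.H626R2.Loc.C7_gen_inl T l m)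
  have hdr : ∀ (l : Fin T) (m : Fin n), (g' m).degreeOf (Sum.inr l) ≤ n := by
    intro l m
    refine (degreeOf_add_le _ _ _).trans ?_
    rw [degreeOf_C]
    exact max_le (Nat.zero_le _) (Pool.Agent.H626R2.Loc.C7_gen_inr T l m)
  have hex : ∃ x : Fin T ⊕ Fin T → K, (∀ i, x i ∈ S i) ∧ eval x (aeval g' f) ≠ 0 := by
    by_contra hcon
    push Not at hcon
    apply h'
    refine MvPolynomial.eq_zero_of_eval_zero_at_prod_finset _ S ?_ hcon
    intro i
    rw [hcard]
    refine Nat.lt_succ_of_le ?_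
    rcases i with l | l
    · refine (Pool.Agent.H626R2.Loc.C7_degreeOf_aeval _ _ 1 (fun m => hdl l m) f).trans ?_
      simp only [B, Sum.elim_inl]
      omega
    · refine (Pool.Agent.H626R2.Loc.C7_degreeOf_aeval _ _ n (fun m => hdr l m) f).trans ?_
      simp only [B, Sum.elim_inr]
      nlinarith
  obtain ⟨x, hx, hne⟩ := hex
  have hx' : ∀ i, ∃ a : ℕ, a ≤ B i ∧ (a : K) = x i := by
    intro i
    obtain ⟨a, ha, hax⟩ := Finset.mem_image.1 (hx i)
    exact ⟨a, Nat.lt_succ_iff.1 (Finset.mem_range.1 ha), hax⟩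
  choose a ha hax using hx'
  refine ⟨u, fun l => a (Sum.inl l), fun l => a (Sum.inr l), hu, fun l => ha _, fun l => ha _, ?_⟩
  have heq : eval x (aeval g' f) =
      eval (fun m : Fin n => (β m).eval (u : K) +
        ∑ l, ((a (Sum.inl l) : ℕ) : K) *
        ∏ j ∈ Finset.univ.erase m, (((a (Sum.inr l) : ℕ) : K) - ((j : ℕ) : K))) f := by
    have h1 : eval x (aeval g' f) = eval (fun m => eval x (g' m)) f := by
      rw [← MvPolynomial.coe_aeval_eq_eval, ← MvPolynomial.coe_aeval_eq_eval]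
      change aeval x (aeval g' f) = _
      rw [← AlgHom.comp_apply, comp_aeval]
      rfl
    rw [h1]
    congr 2
    funext m
    simp only [hg']
    unfold Pool.Agent.H626R2.Loc.gen
    rw [map_add, eval_C, map_sum]
    congr 1
    refine Finset.sum_congr rfl fun l _ => ?_
    rw [map_mul, map_prod, eval_X, hax]
    congr 1
    refine Finset.prod_congr rfl fun j _ => ?_
    rw [map_sub, eval_X, eval_C, hax]
  rw [← heq]
  exact hne

end grid

section scaled

variable {n : ℕ}

/-- the base point scaled by the origin `σ` -/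
noncomputable def sbase (σ : Fin n → ℂ) (N : ℕ) (m : Fin n) : Polynomial ℂ :=
  Polynomial.C (σ m) * base ℂ n N m

theorem sbase_degree (σ : Fin n → ℂ) (N : ℕ) (m : Fin n) : (sbase σ N m).natDegree ≤ N :=
  (Polynomial.natDegree_C_mul_le _ _).trans
    (Pool.Agent.H626R2.Loc.S8.psi_natDegree' N (Nat.nth Nat.Prime m))

theorem sbase_eval (σ : Fin n → ℂ) (N : ℕ) (m : Fin n) (u : ℕ) :
    (sbase σ N m).eval (u : ℂ) = σ m * ((psiN N (Nat.nth Nat.Prime m) u : ℕ) : ℂ) := by
  unfold sbase
  rw [Polynomial.eval_mul, Polynomial.eval_C]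
  congr 1
  exact Pool.Agent.H626R2.Loc.psi_eval N _ u

/-- the value at the parameter `0` is the value at the origin -/
theorem sbase_zero (σ : Fin n → ℂ) (N : ℕ) (g : MvPolynomial (Fin n) ℂ) :
    (aeval (sbase σ N) g).eval 0 = eval σ g := by
  rw [Pool.Agent.H626R2.Loc.S7.eval_aeval]
  congr 2
  funext m
  have h1 := sbase_eval σ N m 0
  rw [Nat.cast_zero] at h1
  rw [h1, Pool.Agent.H626R2.Loc.psiN_eq (Nat.prime_nth_prime m).one_lt.le (Nat.zero_le N),
    pow_zero, Nat.cast_one, mul_one]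

theorem sbase_ne_of_eval {σ : Fin n → ℂ} {N : ℕ} {g : MvPolynomial (Fin n) ℂ}
    (h : eval σ g ≠ 0) : aeval (sbase σ N) g ≠ 0 := by
  intro hc
  apply h
  rw [← sbase_zero σ N g, hc, Polynomial.eval_zero]

/-- the scaling -/
noncomputable def scl (σ : Fin n → ℂ) : MvPolynomial (Fin n) ℂ →ₐ[ℂ] MvPolynomial (Fin n) ℂ :=
  aeval fun m => C (σ m) * X m

theorem coeff_scl (σ : Fin n → ℂ) (h : MvPolynomial (Fin n) ℂ) (e : Fin n →₀ ℕ) :
    coeff e (scl σ h) = coeff e h * ∏ m, σ m ^ e m := by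
  classical
  induction h using MvPolynomial.induction_on' with
  | monomial d a =>
    have h1 : scl σ (monomial d a) = monomial d (a * ∏ m, σ m ^ d m) := by
      rw [scl, aeval_monomial, Finsupp.prod_fintype _ _ (fun m => pow_zero _)]
      have h2 : ∀ m : Fin n, (C (σ m) * X m : MvPolynomial (Fin n) ℂ) ^ d m =
          C (σ m ^ d m) * X m ^ d m := fun m => by rw [mul_pow, C_pow]
      simp only [h2]
      rw [Finset.prod_mul_distrib, ← map_prod]
      have h3 : (∏ m, X m ^ d m : MvPolynomial (Fin n) ℂ) = monomial d 1 := by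
        rw [monomial_eq, C_1, one_mul, Finsupp.prod_fintype _ _ (fun m => pow_zero _)]
      rw [h3, MvPolynomial.algebraMap_eq, C_mul_monomial, C_mul_monomial, mul_one]
    rw [h1, coeff_monomial, coeff_monomial]
    by_cases hd : d = e
    · subst hd
      rw [if_pos rfl, if_pos rfl]
    · rw [if_neg hd, if_neg hd, zero_mul]
  | add p q hp hq => rw [map_add, coeff_add, hp, hq, coeff_add, add_mul]

theorem sbase_ne {σ : Fin n → ℂ} (hσ : ∀ m, σ m ≠ 0) {N : ℕ} {h : MvPolynomial (Fin n) ℂ}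
    (h0 : h ≠ 0) (hN : h.support.card ≤ N) : aeval (sbase σ N) h ≠ 0 := by
  classical
  have h1 : aeval (sbase σ N) h = aeval (base ℂ n N) (scl σ h) := by
    rw [scl, ← AlgHom.comp_apply, comp_aeval]
    congr 2
    funext m
    rw [map_mul, aeval_X, algHom_C]
    rfl
  have hp : ∀ e : Fin n →₀ ℕ, ∏ m, σ m ^ e m ≠ 0 := fun e =>
    Finset.prod_ne_zero_iff.2 fun m _ => pow_ne_zero _ (hσ m)
  rw [h1]
  refine base_ne ?_ ((Finset.card_le_card ?_).trans hN)
  · obtain ⟨e, he⟩ := MvPolynomial.ne_zero_iff.1 h0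
    refine MvPolynomial.ne_zero_iff.2 ⟨e, ?_⟩
    rw [coeff_scl]
    exact mul_ne_zero he (hp e)
  · intro e he
    rw [MvPolynomial.mem_support_iff] at he ⊢
    intro hc
    apply he
    rw [coeff_scl, hc, zero_mul]

end scaled

end Pool.Agent.W936.WB
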