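import Mathlib
import Pool.Agent.W936.WB.Base

/-!
The hitting theorems for formulas of any depth whose gates are regular at the origin.
-/

namespace Pool.Agent.W936.WB

open MvPolynomial Module Pool.Agent.H530R2

section hit

variable {F : Type} [Field F] [CharZero F]

/-- regularity at the origin -/
theorem reg_of_gps1 {n : ℕ} {σ : Fin n → F} (T : Tr F n)
    (h : ∀ g ∈ T.gps, g ≠ 0 → eval σ g ≠ 0) :
    Reg (shVan (F := F) _ (natInj n) σ) 0 ∅ T := by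
  induction T with
  | leaf g => trivial
  | gate γ a b iha ihb =>
    have hpart : ∀ g ∈ [aeval ![a.val, b.val] (pderiv 0 γ), aeval ![a.val, b.val] (pderiv 1 γ)],
        g ≠ 0 → ∀ Y, g ∉ (shVan (F := F) _ (natInj n) σ).I 0 Y := by
      intro g hg h0 Y hc
      exact h g (List.mem_append.2 (Or.inr hg)) h0 (shVan_zero _ _ σ Y hc)
    refine ⟨iha fun g hg => h g (List.mem_append.2 (Or.inl (List.mem_append.2 (Or.inl hg)))),
      ihb fun g hg => h g (List.mem_append.2 (Or.inl (List.mem_append.2 (Or.inr hg)))), ?_⟩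
    intro i h0 Y _
    fin_cases i
    · exact hpart _ (by simp) h0 Y
    · exact hpart _ (by simp) h0 Y

/-- polynomials in `w` formulas -/
theorem poly_hit4 (𝔎 : Fam F) (k w W0 : ℕ) : ∃ m : ℕ, ∀ (n s : ℕ) (σ : Fin n → F),
    shVan (F := F) _ (natInj n) σ ∈ 𝔎.Ok s n → ∀ T : Fin w → Tr F n,
    (∀ q, (T q).Lv (𝔎.K s n W0)) →
    (∀ q i, (T q).occ i ≤ k) → (∀ q, ∀ g ∈ (T q).gps, g ≠ 0 → eval σ g ≠ 0) →
    ∀ f ∈ Algebra.adjoin F (Set.range fun q => (T q).val), f ≠ 0 →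
    f ∉ (shVan (F := F) _ (natInj n) σ).I m ∅ := by
  classical
  set p := Cst.trees F k 0 W0 𝔎.cst w with hp
  refine ⟨p.sd (p.comb w (W0 + w)), ?_⟩
  intro n s σ hok T hL hocc hreg f hf hf0 hmem
  obtain ⟨𝔏', _, h2⟩ := (𝔎.toL hok).trees k 0 W0 w T
    (fun q i _ => hocc q i) (fun q => reg_of_gps1 (T q) (hreg q)) (fun q => hL q)
  apply hf0
  exact 𝔏'.seeds _ _ (𝔏'.comb_mem (ι := Fin w) (g := fun q => (T q).val)
    (by rw [Fintype.card_fin]) (fun q => h2 q (W0 + w) (Nat.le_add_left _ _)) hf) ∅ le_rfl hmem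

/-- polynomials in products of polynomials in `w` formulas -/
theorem tree_hit4 (𝔎 : Fam F) (κ k w c W0 : ℕ) (hk : 1 ≤ k) : ∃ m : ℕ,
    ∀ (n s : ℕ) (σ : Fin n → F), shVan (F := F) _ (natInj n) σ ∈ 𝔎.Ok s n →
    ∀ (L : Set (MvPolynomial (Fin n) F)) (Q : Tr F n → Prop), L ⊆ 𝔎.K s n W0 → (∀ y, C y ∈ L) →
    (∀ A : Finset (Fin n), A.card ≤ κ → ∀ g ∈ L, Gn (𝔎.K s n W0) A c g) →
    (∀ T : Tr F n, Q T → T.ML ∧ T.Lv L ∧ (∀ i, T.occ i ≤ k) ∧
        ∀ T' ∈ T.segs, ∀ g ∈ T'.gps, g ≠ 0 → eval σ g ≠ 0) →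
      ∀ f : MvPolynomial (Fin n) F, Pool.Agent.H626R2.Loc.BddTrG (PolyIn Q w) κ f → f ≠ 0 →
        f ∉ (shVan (F := F) _ (natInj n) σ).I m ∅ := by
  classical
  set C₁ := w * (κ * k * (c + 4) + 1) with hC₁
  set q₀ := (κ + 1) * C₁ with hq₀
  refine ⟨(Cst.trees F k 0 W0 𝔎.cst q₀).em q₀ q₀ + (κ + (κ + 1) * C₁), ?_⟩
  intro n s σ hok L Q hL hC hgn hreg f hf hf0
  set T' : Set (MvPolynomial (Fin n) F) := {x | ∃ T : Tr F n, (∀ i, T.occ i ≤ k) ∧
    Reg (shVan (F := F) _ (natInj n) σ) 0 ∅ T ∧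
    T.Lv (𝔎.K s n W0) ∧ x = T.val} with hT'
  have hleafT' : ∀ g ∈ 𝔎.K s n W0, g ∈ T' := by
    intro g hg
    refine ⟨.leaf g, fun i => ?_, trivial, hg, rfl⟩
    rw [Tr.occ]
    split_ifs
    · exact hk
    · exact Nat.zero_le _
  have hsub : ∀ T : Tr F n, Q T → Ds (𝔎.K s n W0) T ⊆ T' := by
    rintro T hQT x (hx | ⟨T₀, a1, rfl⟩)
    · exact hleafT' x hx
    · obtain ⟨_, e2, e4, e5⟩ := hreg T hQT
      exact ⟨T₀, fun i => ((Tr.segs_red a1).occ i).trans (e4 i), reg_of_gps1 T₀ (e5 T₀ a1),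
        ((Tr.segs_red a1).lv hC e2).mono hL, rfl⟩
  have h0T : (0 : MvPolynomial (Fin n) F) ∈ tsl σ '' T' :=
    ⟨0, hleafT' 0 (hL (by simpa using hC 0)), map_zero _⟩
  have hfc : ∀ g, PolyIn Q w g →
      Pool.Agent.H626R2.Loc.FinCoef κ C₁ (tsl σ '' T') (tsl σ g) := by
    rintro g ⟨T, P, hT, rfl⟩
    rw [← AlgHom.comp_apply, comp_aeval]
    refine Pool.Agent.H626R2.Loc.FinCoef.comp _ (fun i => ?_) P
    refine Gn.finCoef h0T fun A hA => ?_
    obtain ⟨e1, e2, e3, _⟩ := hreg _ (hT i)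
    exact ((Tr.gns2 hA (fun g hg => hgn A hA g hg) e1 e2 e3).mono (hsub _ (hT i)) le_rfl).tsl σ
  have htf : tsl σ f ≠ 0 := fun h => hf0 (tsl_inj σ (by rw [h, map_zero]))
  have hhit := Pool.Agent.H626R2.Loc.fin_hit (K := F) (n := n) (k := κ) (C := C₁)
    (m := (Cst.trees F k 0 W0 𝔎.cst q₀).em q₀ q₀) (tsl σ '' T') h0T ?_
    (f := tsl σ f) ?_ htf
  · rw [evT_ne_iff] at hhit
    intro hc
    exact hhit ((mem_shVan _ (natInj n) σ _ f).1 hc)
  · intro q hq t _ G hG hdet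
    rw [evT_ne_iff]
    choose G₀ hG₀ hG₀' using hG
    choose T hT using hG₀
    intro hc
    have hG' : G = fun a => tsl σ (T a).val := funext fun a => by
      rw [← (hT a).2.2.2]
      exact (hG₀' a).symm
    rw [hG'] at hc hdet
    have hc' : tsl σ (Matrix.of fun a b => pderiv (t b) (T a).val).det ∈
        genI (fun i : Fin n => ((i.val : ℕ) : F))
          ((Cst.trees F k 0 W0 𝔎.cst q₀).em q₀ q₀) := by
      rw [← tsl_det σ t fun a => (T a).val]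
      exact hc
    have hdet' : (Matrix.of fun a b => pderiv (t b) (T a).val).det ≠ 0 := by
      intro h
      apply hdet
      rw [tsl_det σ t fun a => (T a).val, h, map_zero]
    exact trees_det (𝔎.toL hok) hq T
      (fun a => ⟨(hT a).1, (hT a).2.1, (hT a).2.2.1⟩) (hL (hC 0)) t hdet'
      ((mem_shVan _ (natInj n) σ _ _).2 hc')
  · obtain ⟨N', Sm, hSm, hdep, hmem⟩ := hf
    refine ⟨N', fun i => (Sm i).map (tsl σ), ?_, ?_, ?_⟩
    · intro i g hg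
      obtain ⟨g', hg', rfl⟩ := Multiset.mem_map.1 hg
      exact hfc g' (hSm i g' hg')
    · intro u hu
      apply hdep u
      refine AlgebraicIndependent.of_comp (tsl σ) ?_
      have he : (⇑(tsl σ) ∘ fun a => (Sm (u a)).prod) =
          fun a => ((Sm (u a)).map (tsl σ)).prod := by
        funext a
        exact map_multiset_prod (tsl σ) _
      rw [he]
      exact hu
    · have h3 : tsl σ f ∈ (Algebra.adjoin F (Set.range fun i => (Sm i).prod)).map (tsl σ) :=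
        ⟨f, hmem, rfl⟩
      rw [AlgHom.map_adjoin] at h3
      refine Algebra.adjoin_mono ?_ h3
      rintro _ ⟨_, ⟨i, rfl⟩, rfl⟩
      exact ⟨i, (map_multiset_prod (tsl σ) _).symm⟩

end hit

/-- the base family of a sequence of generators -/
noncomputable def bfam (n_ s_ : ℕ → ℕ) (b_ : ∀ k, Fin (n_ k) → Polynomial ℂ)
    (hβ : ∀ k (h : MvPolynomial (Fin (n_ k)) ℂ), h ≠ 0 → h.support.card ≤ (s_ k + 2) ^ k →
      aeval (b_ k) h ≠ 0) : Fam (RatFunc ℂ) :=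
  seqFam n_ (fun k => s_ k + 2) (fun k => Nat.le_add_left _ _)
    (fun k => rVan (b_ k)) (fun k h h0 hs Y => rVan_hit (hβ k h h0 hs) Y)

open Pool.Agent.W936.RO (up sext)

theorem bfam_ok {n_ s_ : ℕ → ℕ} {b_ : ∀ k, Fin (n_ k) → Polynomial ℂ}
    (hβ : ∀ k (h : MvPolynomial (Fin (n_ k)) ℂ), h ≠ 0 → h.support.card ≤ (s_ k + 2) ^ k →
      aeval (b_ k) h ≠ 0) (D k : ℕ) :
    rVan (b_ k) ∈ (up (bfam n_ s_ b_ hβ) D).Ok k (n_ k) := by
  induction D with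
  | zero => exact rfl
  | succ D ih => exact ih

theorem bfam_mem {n_ s_ : ℕ → ℕ} {b_ : ∀ k, Fin (n_ k) → Polynomial ℂ}
    (hβ : ∀ k (h : MvPolynomial (Fin (n_ k)) ℂ), h ≠ 0 → h.support.card ≤ (s_ k + 2) ^ k →
      aeval (b_ k) h ≠ 0) (k : ℕ) {f : MvPolynomial (Fin (n_ k)) ℂ} (hf : f.support.card ≤ s_ k) :
    sext f ∈ (bfam n_ s_ b_ hβ).K k (n_ k) 1 :=
  ⟨Unit, inferInstance, fun _ => f, by simp,
      fun _ => by rw [pow_one]; exact hf.trans (Nat.le_add_right _ _),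
      Algebra.subset_adjoin ⟨(), rfl⟩⟩

end Pool.Agent.W936.WB
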